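import Pool.Agent.Lib.RX.Fin

open Finset Real Filter MeasureTheory ProbabilityTheory Asymptotics

theorem Pool.Agent.Results.MP_7032cb_nt.ExactOrder.result
    (Ω : Type) [MeasurableSpace Ω] (μ : Measure Ω) [IsProbabilityMeasure μ]
    (X : ℕ → Ω → ℝ) (hm : ∀ p : ℕ, p.Prime → Measurable (X p))
    (hi : iIndepFun (fun p : Nat.Primes => X p) μ)
    (h1 : ∀ p : ℕ, p.Prime → μ {ω | X p ω = 1} = 1 / 2)
    (h2 : ∀ p : ℕ, p.Prime → μ {ω | X p ω = -1} = 1 / 2) :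
    ∀ᵐ ω ∂μ, (fun x : ℝ => ∑ n ∈ (Icc 1 ⌊x⌋₊).filter Squarefree, ∏ p ∈ n.primeFactors, X p ω)
      =O[atTop] fun x : ℝ => √x * log (log x) ^ (1 / 4 : ℝ) :=
  Pool.Agent.Lib.RX.transfer (Pool.Agent.Lib.RX.bigO Pool.Agent.Lib.RX.core) μ X hm hi h1 h2
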